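import Pool.Agent.helper10.NA.Defs

set_option autoImplicit false

/-!
# Module A: recursion and contraction
-/

namespace Pool.Agent.helper11.NA

open Pool.Agent.helper7.UG Pool.Agent.helper10.NA

theorem Kx_normal (S : Finset (Fin 3)) (K : Subgroup F4) (hK : K.Normal) : (Kx S K).Normal := by
  constructor
  intro n hn g
  rw [mem_Kx] at hn ⊢
  refine ⟨by rw [mul_right_apply, mul_right_apply, hn.1, SemidirectProduct.inv_right, mul_one,
    mul_inv_cancel], fun e y hy => ?_⟩
  have h1 := mul_left_apply g g⁻¹ e y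
  rw [mul_inv_cancel] at h1
  have h2 : g⁻¹.left (g.right⁻¹ e) y = (g.left e y)⁻¹ := eq_inv_of_mul_eq_one_right h1.symm
  rw [mul_left_apply, mul_left_apply, mul_right_apply, hn.1, mul_one, h2]
  exact hK.conj_mem _ (hn.2 _ _ hy) _

theorem Kx_mono (S : Finset (Fin 3)) {K K' : Subgroup F4} (h : K ≤ K') : Kx S K ≤ Kx S K' :=
  fun _ hg => ⟨hg.1, fun e y hy => h (hg.2 e y hy)⟩

theorem KK_normal (n : ℕ) (τ : ℕ → Finset (Fin 3)) : (KK n τ).Normal := by
  induction n generalizing τ with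
  | zero => exact Subgroup.normalClosure_normal
  | succ n ih =>
    rw [KK_succ]
    have := Kx_normal (τ 0) (KK n (tl τ)) (ih _)
    infer_instance

theorem of_sq_mem_K0 (i : Fin 4) : (FreeGroup.of i * FreeGroup.of i : F4) ∈ K0 :=
  Subgroup.subset_normalClosure (Or.inl ⟨i, rfl⟩)

theorem of_prod_mem_K0 :
    (FreeGroup.of 1 * FreeGroup.of 2 * FreeGroup.of 3 : F4) ∈ K0 :=
  Subgroup.subset_normalClosure (Or.inr rfl)

theorem wgen_right_zero : (wgen 0).right = Equiv.boolNot := rfl

theorem wgen_left_zero (e : Bool) (y : Fin 3) : (wgen 0).left e y = 1 := rfl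

theorem wgen_right {i : Fin 4} (hi : i ≠ 0) : (wgen i).right = 1 := by
  unfold wgen; rw [if_neg hi]

theorem wgen_left_true {i : Fin 4} (hi : i ≠ 0) (y : Fin 3) :
    (wgen i).left true y = FreeGroup.of i := by
  unfold wgen; rw [if_neg hi]; rfl

theorem wgen_left_false {i : Fin 4} (hi : i ≠ 0) (y : Fin 3) :
    (wgen i).left false y = if act i y then FreeGroup.of 0 else 1 := by
  unfold wgen; rw [if_neg hi]; rfl

theorem K0_le_of_normal {K : Subgroup F4} (hK : K.Normal)
    (h1 : ∀ i : Fin 4, (FreeGroup.of i * FreeGroup.of i : F4) ∈ K)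
    (h2 : (FreeGroup.of 1 * FreeGroup.of 2 * FreeGroup.of 3 : F4) ∈ K) : K0 ≤ K := by
  apply Subgroup.normalClosure_le_normal
  rintro g (⟨i, rfl⟩ | rfl)
  · exact h1 i
  · exact h2

theorem act_cases (y : Fin 3) : (act 1 y = true ∧ act 2 y = true ∧ act 3 y = false) ∨
    (act 1 y = true ∧ act 2 y = false ∧ act 3 y = true) ∨
    (act 1 y = false ∧ act 2 y = true ∧ act 3 y = true) := by
  revert y; decide

theorem K0_le_comap (S : Finset (Fin 3)) : K0 ≤ (Kx S K0).comap Psi := by
  have := Kx_normal S K0 Subgroup.normalClosure_normal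
  refine K0_le_of_normal inferInstance (fun i => ?_) ?_
  · rw [Subgroup.mem_comap, mem_Kx, map_mul, Psi_of]
    by_cases hi : i = 0
    · subst hi
      refine ⟨?_, fun e y _ => ?_⟩
      · rw [mul_right_apply, wgen_right_zero]
        ext b
        cases b <;> rfl
      · rw [mul_left_apply, wgen_left_zero, wgen_left_zero, mul_one]
        exact K0.one_mem
    · refine ⟨?_, fun e y _ => ?_⟩
      · rw [mul_right_apply, wgen_right hi, mul_one]
      · rw [mul_left_apply, wgen_right hi, inv_one, Equiv.Perm.one_apply]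
        cases e with
        | true =>
          rw [wgen_left_true hi]
          exact of_sq_mem_K0 i
        | false =>
          rw [wgen_left_false hi]
          split_ifs
          · exact of_sq_mem_K0 0
          · rw [mul_one]; exact K0.one_mem
  · rw [Subgroup.mem_comap, mem_Kx, map_mul, map_mul, Psi_of, Psi_of, Psi_of]
    have h1 : (1 : Fin 4) ≠ 0 := by decide
    have h2 : (2 : Fin 4) ≠ 0 := by decide
    have h3 : (3 : Fin 4) ≠ 0 := by decide
    refine ⟨?_, fun e y _ => ?_⟩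
    · rw [mul_right_apply, mul_right_apply, wgen_right h1, wgen_right h2, wgen_right h3, mul_one,
        mul_one]
    · rw [mul_left_apply, mul_left_apply, mul_right_apply, wgen_right h1, wgen_right h2,
        mul_one, inv_one, Equiv.Perm.one_apply]
      cases e with
      | true =>
        rw [wgen_left_true h1, wgen_left_true h2, wgen_left_true h3]
        exact of_prod_mem_K0
      | false =>
        rw [wgen_left_false h1, wgen_left_false h2, wgen_left_false h3]
        have hsq := of_sq_mem_K0 0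
        rcases act_cases y with ⟨ha, hb, hc⟩ | ⟨ha, hb, hc⟩ | ⟨ha, hb, hc⟩ <;> rw [ha, hb, hc] <;>
          simpa using hsq

theorem KK_le_succ (n : ℕ) (τ : ℕ → Finset (Fin 3)) : KK n τ ≤ KK (n + 1) τ := by
  induction n generalizing τ with
  | zero =>
    rw [KK_succ, KK_zero, KK_zero]
    exact K0_le_comap _
  | succ n ih =>
    rw [KK_succ, KK_succ]
    exact Subgroup.comap_mono (Kx_mono _ (ih _))

theorem KK_mono {m n : ℕ} (h : m ≤ n) (τ : ℕ → Finset (Fin 3)) : KK m τ ≤ KK n τ := by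
  induction h with
  | refl => exact le_rfl
  | step _ ih => exact ih.trans (KK_le_succ _ _)

theorem K0_le_KK (n : ℕ) (τ : ℕ → Finset (Fin 3)) : K0 ≤ KK n τ := by
  have := KK_mono (Nat.zero_le n) τ
  rwa [KK_zero] at this

theorem K0_le_NL (Λ : Set (ℕ → Fin 3)) : K0 ≤ NL Λ := by
  refine K0_le_of_normal inferInstance (of_sq_mem Λ) ?_
  · have h1 := of_mul_mem Λ 1 2 3 (by decide) (by decide) (by decide) (by decide)
    have h2 := of_sq_mem Λ 3
    have h3 := (NL Λ).mul_mem h1 h2
    have h4 : FreeGroup.of 1 * FreeGroup.of 2 * (FreeGroup.of 3)⁻¹ *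
        (FreeGroup.of 3 * FreeGroup.of 3) =
        (FreeGroup.of 1 * FreeGroup.of 2 * FreeGroup.of 3 : F4) := by group
    rw [h4] at h3
    exact h3

theorem mem_NL_Lam (τ : ℕ → Finset (Fin 3)) (hne : ∀ n, (τ n).Nonempty) (w : F4) :
    w ∈ NL (Lam τ) ↔ (Psi w).right = 1 ∧ ∀ e, ∀ y ∈ τ 0, (Psi w).left e y ∈ NL (Lam (tl τ)) := by
  rw [mem_NL]
  constructor
  · intro h
    choose f hf using hne
    refine ⟨((homω_eq_one_iff f w).1 (h f hf)).1, fun e y hy => ?_⟩
    rw [mem_NL]
    intro ω hω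
    have hmem : consω y ω ∈ Lam τ := by
      intro n
      cases n with
      | zero => exact hy
      | succ n => exact hω n
    exact ((homω_eq_one_iff _ w).1 (h _ hmem)).2 e
  · rintro ⟨h1, h2⟩ ω hω
    rw [homω_eq_one_iff]
    refine ⟨h1, fun e => ?_⟩
    have h3 := h2 e (ω 0) (hω 0)
    rw [mem_NL] at h3
    exact h3 (shift ω) fun n => hω (n + 1)

theorem KK_le_NL (n : ℕ) (τ : ℕ → Finset (Fin 3)) : KK n τ ≤ NL (Lam τ) := by
  induction n generalizing τ with
  | zero => exact K0_le_NL _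
  | succ n ih =>
    intro w hw
    rw [KK_succ, Subgroup.mem_comap, mem_Kx] at hw
    rw [mem_NL]
    intro ω hω
    rw [homω_eq_one_iff]
    refine ⟨hw.1, fun e => ?_⟩
    have h3 := ih (tl τ) (hw.2 e (ω 0) (hω 0))
    rw [mem_NL] at h3
    exact h3 (shift ω) fun n => hω (n + 1)

/-! ### Normal forms modulo `K0` -/

/-- The elements of `V` (`0` is the identity). -/
def vv (i : Fin 4) : F4 := if i = 0 then 1 else FreeGroup.of i

theorem vv_zero : vv 0 = 1 := rfl

theorem vv_of {i : Fin 4} (hi : i ≠ 0) : vv i = FreeGroup.of i := by rw [vv, if_neg hi]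

/-- The multiplication of `V`. -/
def vmul (i j : Fin 4) : Fin 4 :=
  if i = 0 then j else if j = 0 then i else if i = j then 0 else
    if i ≠ 1 ∧ j ≠ 1 then 1 else if i ≠ 2 ∧ j ≠ 2 then 2 else 3

/-- Congruence modulo `K0`. -/
def Eqv (x y : F4) : Prop := x * y⁻¹ ∈ K0

theorem Eqv.refl (x : F4) : Eqv x x := by
  unfold Eqv
  rw [mul_inv_cancel]
  exact K0.one_mem

theorem Eqv.symm {x y : F4} (h : Eqv x y) : Eqv y x := by
  unfold Eqv at h ⊢
  have := K0.inv_mem h
  rwa [mul_inv_rev, inv_inv] at this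

theorem Eqv.trans {x y z : F4} (h : Eqv x y) (h' : Eqv y z) : Eqv x z := by
  unfold Eqv at h h' ⊢
  have := K0.mul_mem h h'
  rwa [show x * y⁻¹ * (y * z⁻¹) = x * z⁻¹ by group] at this

theorem K0_normal : K0.Normal := Subgroup.normalClosure_normal

theorem Eqv.mul {x y x' y' : F4} (h : Eqv x y) (h' : Eqv x' y') : Eqv (x * x') (y * y') := by
  unfold Eqv at h h' ⊢
  have h1 := K0_normal.conj_mem _ h' x
  have h2 := K0.mul_mem h1 h
  rwa [show x * (x' * y'⁻¹) * x⁻¹ * (x * y⁻¹) = x * x' * (y * y')⁻¹ by group] at h2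

theorem Eqv.inv {x y : F4} (h : Eqv x y) : Eqv x⁻¹ y⁻¹ := by
  unfold Eqv at h ⊢
  have h1 := K0_normal.conj_mem _ (K0.inv_mem h) x⁻¹
  rwa [show x⁻¹ * (x * y⁻¹)⁻¹ * x⁻¹⁻¹ = x⁻¹ * y⁻¹⁻¹ by group] at h1

theorem eqv_one_iff {x : F4} : Eqv x 1 ↔ x ∈ K0 := by
  unfold Eqv
  rw [inv_one, mul_one]

theorem of_sq_eqv (i : Fin 4) : Eqv (FreeGroup.of i * FreeGroup.of i) 1 :=
  eqv_one_iff.2 (of_sq_mem_K0 i)

theorem of_inv_eqv (i : Fin 4) : Eqv (FreeGroup.of i)⁻¹ (FreeGroup.of i) := by
  have h := (Eqv.refl (FreeGroup.of i)⁻¹).mul (of_sq_eqv i)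
  rw [inv_mul_cancel_left, mul_one] at h
  exact h.symm

theorem bc_eqv : Eqv (FreeGroup.of 1 * FreeGroup.of 2) (FreeGroup.of 3) := by
  have h : Eqv (FreeGroup.of 1 * FreeGroup.of 2 * FreeGroup.of 3) 1 := eqv_one_iff.2 of_prod_mem_K0
  have h1 := h.mul (Eqv.refl (FreeGroup.of 3)⁻¹)
  rw [mul_inv_cancel_right, one_mul] at h1
  exact h1.trans (of_inv_eqv 3)

theorem cd_eqv : Eqv (FreeGroup.of 2 * FreeGroup.of 3) (FreeGroup.of 1) := by
  have h : Eqv (FreeGroup.of 1 * FreeGroup.of 2 * FreeGroup.of 3) 1 := eqv_one_iff.2 of_prod_mem_K0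
  have h1 := (Eqv.refl (FreeGroup.of 1)⁻¹).mul h
  rw [mul_assoc, inv_mul_cancel_left, mul_one] at h1
  exact h1.trans (of_inv_eqv 1)

theorem swap_eqv {i j k : Fin 4} (h : Eqv (FreeGroup.of i * FreeGroup.of j) (FreeGroup.of k)) :
    Eqv (FreeGroup.of j * FreeGroup.of i) (FreeGroup.of k) := by
  have h1 := h.inv
  rw [mul_inv_rev] at h1
  exact (((of_inv_eqv j).mul (of_inv_eqv i)).symm.trans h1).trans (of_inv_eqv k)

theorem bd_eqv : Eqv (FreeGroup.of 1 * FreeGroup.of 3) (FreeGroup.of 2) := by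
  have h1 := (Eqv.refl (FreeGroup.of 1)).mul bc_eqv
  have h2 := (of_sq_eqv 1).mul (Eqv.refl (FreeGroup.of 2))
  rw [one_mul, mul_assoc] at h2
  exact h1.symm.trans h2

theorem vv_mul (i j : Fin 4) : Eqv (vv i * vv j) (vv (vmul i j)) := by
  by_cases hi : i = 0
  · subst hi
    rw [vv_zero, one_mul]
    exact Eqv.refl _
  by_cases hj : j = 0
  · subst hj
    rw [vv_zero, mul_one]
    simp only [vmul, if_neg hi, if_true]
    exact Eqv.refl _
  rw [vv_of hi, vv_of hj]
  by_cases hij : i = j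
  · subst hij
    simp only [vmul, if_neg hi, if_true]
    exact of_sq_eqv i
  have key : ∀ i j : Fin 4, i ≠ 0 → j ≠ 0 → i ≠ j →
      (i = 1 ∧ j = 2 ∧ vmul i j = 3) ∨ (i = 2 ∧ j = 1 ∧ vmul i j = 3) ∨
      (i = 2 ∧ j = 3 ∧ vmul i j = 1) ∨ (i = 3 ∧ j = 2 ∧ vmul i j = 1) ∨
      (i = 1 ∧ j = 3 ∧ vmul i j = 2) ∨ (i = 3 ∧ j = 1 ∧ vmul i j = 2) := by decide
  rcases key i j hi hj hij with ⟨rfl, rfl, h⟩ | ⟨rfl, rfl, h⟩ | ⟨rfl, rfl, h⟩ | ⟨rfl, rfl, h⟩ |
    ⟨rfl, rfl, h⟩ | ⟨rfl, rfl, h⟩ <;> rw [h, vv_of (by decide)]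
  · exact bc_eqv
  · exact swap_eqv bc_eqv
  · exact cd_eqv
  · exact swap_eqv cd_eqv
  · exact bd_eqv
  · exact swap_eqv bd_eqv

/-- The word `∏ (a v_j)`. -/
def W : List (Fin 4) → F4
  | [] => 1
  | v :: l => FreeGroup.of 0 * vv v * W l

theorem W_nil : W [] = 1 := rfl

theorem W_cons (v : Fin 4) (l : List (Fin 4)) : W (v :: l) = FreeGroup.of 0 * vv v * W l := rfl

theorem W_append (l l' : List (Fin 4)) : W (l ++ l') = W l * W l' := by
  induction l with
  | nil => rw [List.nil_append, W_nil, one_mul]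
  | cons v l ih => rw [List.cons_append, W_cons, W_cons, ih, mul_assoc, mul_assoc, mul_assoc]

/-- The elements which can be written modulo `K0` with at most `k` letters `a`. -/
def Len (k : ℕ) (w : F4) : Prop := ∃ v l, l.length ≤ k ∧ Eqv w (vv v * W l)

theorem Len.mono {k k' : ℕ} (h : k ≤ k') {w : F4} (hw : Len k w) : Len k' w := by
  obtain ⟨v, l, hl, hw⟩ := hw
  exact ⟨v, l, hl.trans h, hw⟩

theorem Len.eqv {k : ℕ} {w w' : F4} (hw : Len k w) (h : Eqv w' w) : Len k w' := by
  obtain ⟨v, l, hl, hw⟩ := hw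
  exact ⟨v, l, hl, h.trans hw⟩

theorem Len.one : Len 0 1 := ⟨0, [], le_rfl, by rw [vv_zero, W_nil, one_mul]; exact Eqv.refl _⟩

theorem Len.vv_mul {k : ℕ} {w : F4} (hw : Len k w) (u : Fin 4) : Len k (vv u * w) := by
  obtain ⟨v, l, hl, hw⟩ := hw
  refine ⟨vmul u v, l, hl, ?_⟩
  refine ((Eqv.refl _).mul hw).trans ?_
  rw [← mul_assoc]
  exact (NA.vv_mul u v).mul (Eqv.refl _)

theorem Len.a_mul {k : ℕ} {w : F4} (hw : Len k w) : Len (k + 1) (FreeGroup.of 0 * w) := by
  obtain ⟨v, l, hl, hw⟩ := hw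
  refine ⟨0, v :: l, by simpa using hl, ?_⟩
  rw [vv_zero, one_mul, W_cons, mul_assoc]
  exact (Eqv.refl _).mul hw

theorem Len.of_mul {k : ℕ} {w : F4} (hw : Len k w) (i : Fin 4) :
    Len (k + 1) (FreeGroup.of i * w) := by
  by_cases hi : i = 0
  · subst hi
    exact hw.a_mul
  · rw [← vv_of hi]
    exact (hw.vv_mul i).mono (Nat.le_succ k)

theorem exists_len (w : F4) : ∃ k, Len k w := by
  suffices H : ∀ (w : F4), (∀ x, (∃ k, Len k x) → ∃ k, Len k (w * x)) by
    obtain ⟨k, hk⟩ := H w 1 ⟨0, Len.one⟩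
    rw [mul_one] at hk
    exact ⟨k, hk⟩
  intro w
  induction w using FreeGroup.induction_on with
  | C1 => intro x hx; rwa [one_mul]
  | of i =>
    rintro x ⟨k, hk⟩
    exact ⟨k + 1, hk.of_mul i⟩
  | inv_of i _ =>
    rintro x ⟨k, hk⟩
    exact ⟨k + 1, (hk.of_mul i).eqv ((of_inv_eqv i).mul (Eqv.refl _))⟩
  | mul x y hx hy =>
    intro z hz
    rw [mul_assoc]
    exact hx _ (hy _ hz)

/-! ### Sections -/

theorem Psi_vv_right (v : Fin 4) : (Psi (vv v)).right = 1 := by
  by_cases hv : v = 0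
  · subst hv
    rw [vv_zero, map_one]
    rfl
  · rw [vv_of hv, Psi_of, wgen_right hv]

theorem Psi_vv_left_true (v : Fin 4) (y : Fin 3) : (Psi (vv v)).left true y = vv v := by
  by_cases hv : v = 0
  · subst hv
    rw [vv_zero, map_one]
    rfl
  · rw [vv_of hv, Psi_of, wgen_left_true hv]

theorem Psi_vv_left_false (v : Fin 4) (y : Fin 3) :
    (Psi (vv v)).left false y = if act v y then FreeGroup.of 0 else 1 := by
  by_cases hv : v = 0
  · subst hv
    rw [vv_zero, map_one]
    have : act 0 y = false := by simp [act]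
    rw [this]
    rfl
  · rw [vv_of hv, Psi_of, wgen_left_false hv]

theorem Psi_a_right : (Psi (FreeGroup.of 0)).right = Equiv.boolNot := by
  rw [Psi_of, wgen_right_zero]

theorem Psi_a_left (e : Bool) (y : Fin 3) : (Psi (FreeGroup.of 0)).left e y = 1 := by
  rw [Psi_of, wgen_left_zero]

theorem boolNot_inv_apply (e : Bool) : (Equiv.boolNot⁻¹ : Equiv.Perm Bool) e = !e := rfl

theorem Psi_av_right (v : Fin 4) : (Psi (FreeGroup.of 0 * vv v)).right = Equiv.boolNot := by
  rw [map_mul, mul_right_apply, Psi_a_right, Psi_vv_right, mul_one]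

theorem Psi_av_left (v : Fin 4) (e : Bool) (y : Fin 3) :
    (Psi (FreeGroup.of 0 * vv v)).left e y = (Psi (vv v)).left (!e) y := by
  rw [map_mul, mul_left_apply, Psi_a_left, Psi_a_right, one_mul, boolNot_inv_apply]

theorem Psi_W_two_right (u v : Fin 4) (l : List (Fin 4)) :
    (Psi (W (u :: v :: l))).right = (Psi (W l)).right := by
  rw [W_cons, W_cons, map_mul Psi (FreeGroup.of 0 * vv u), map_mul Psi (FreeGroup.of 0 * vv v),
    mul_right_apply, mul_right_apply, Psi_av_right, Psi_av_right, ← mul_assoc]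
  have : (Equiv.boolNot * Equiv.boolNot : Equiv.Perm Bool) = 1 := by
    ext b; cases b <;> rfl
  rw [this, one_mul]

theorem Psi_W_two_left (u v : Fin 4) (l : List (Fin 4)) (e : Bool) (y : Fin 3) :
    (Psi (W (u :: v :: l))).left e y =
      (Psi (vv u)).left (!e) y * ((Psi (vv v)).left e y * (Psi (W l)).left e y) := by
  rw [W_cons, W_cons, map_mul Psi (FreeGroup.of 0 * vv u), map_mul Psi (FreeGroup.of 0 * vv v),
    mul_left_apply, mul_left_apply, Psi_av_left,
    Psi_av_right, Psi_av_left, Psi_av_right]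
  simp only [boolNot_inv_apply, Bool.not_not]

/-- The sections of an even word have at most half as many letters `a`. -/
theorem Len_section (l : List (Fin 4)) (m : ℕ) (hl : l.length = 2 * m) (e : Bool) (y : Fin 3) :
    Len m ((Psi (W l)).left e y) ∧ (Psi (W l)).right = 1 := by
  induction m generalizing l with
  | zero =>
    have : l = [] := List.length_eq_zero_iff.1 (by simpa using hl)
    subst this
    rw [W_nil, map_one]
    exact ⟨Len.one, rfl⟩
  | succ m ih =>
    match l, hl with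
    | u :: v :: l, hl =>
      have h1 : l.length = 2 * m := by
        simp only [List.length_cons] at hl
        omega
      obtain ⟨h2, h3⟩ := ih l h1
      refine ⟨?_, by rw [Psi_W_two_right, h3]⟩
      rw [Psi_W_two_left]
      cases e with
      | true =>
        rw [Bool.not_true, Psi_vv_left_false, Psi_vv_left_true]
        split_ifs
        · exact (h2.vv_mul v).a_mul
        · rw [one_mul]
          exact (h2.vv_mul v).mono (Nat.le_succ m)
      | false =>
        rw [Bool.not_false, Psi_vv_left_false, Psi_vv_left_true]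
        refine Len.vv_mul ?_ u
        split_ifs
        · exact h2.a_mul
        · rw [one_mul]
          exact h2.mono (Nat.le_succ m)

theorem Psi_W_right_odd (l : List (Fin 4)) (m : ℕ) (hl : l.length = 2 * m + 1) :
    (Psi (W l)).right ≠ 1 := by
  induction m generalizing l with
  | zero =>
    match l, hl with
    | [u], _ =>
      rw [W_cons, W_nil, mul_one, Psi_av_right]
      intro h
      have := Equiv.congr_fun h true
      exact absurd this (by decide)
  | succ m ih =>
    match l, hl with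
    | u :: v :: l, hl =>
      rw [Psi_W_two_right]
      exact ih l (by simp only [List.length_cons] at hl; omega)

theorem a_not_mem (τ : ℕ → Finset (Fin 3)) (hne : ∀ n, (τ n).Nonempty) :
    (FreeGroup.of 0 : F4) ∉ NL (Lam τ) := by
  rw [mem_NL_Lam τ hne, Psi_a_right]
  rintro ⟨h, -⟩
  have := Equiv.congr_fun h true
  exact absurd this (by decide)

/-- A nontrivial element of `V` does not lie in the kernel. -/
theorem vv_not_mem (i : Fin 4) (n : ℕ) : ∀ τ : ℕ → Finset (Fin 3), (∀ n, (τ n).Nonempty) →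
    (∃ y ∈ τ n, act i y = true) → vv i ∉ NL (Lam τ) := by
  induction n with
  | zero =>
    rintro τ hne ⟨y, hy, hact⟩ h
    rw [mem_NL_Lam τ hne] at h
    have h1 := h.2 false y hy
    rw [Psi_vv_left_false, hact, if_pos rfl] at h1
    exact a_not_mem (tl τ) (fun n => hne (n + 1)) h1
  | succ n ih =>
    rintro τ hne hex h
    rw [mem_NL_Lam τ hne] at h
    obtain ⟨y, hy⟩ := hne 0
    have h1 := h.2 true y hy
    rw [Psi_vv_left_true] at h1
    exact ih (tl τ) (fun n => hne (n + 1)) hex h1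

theorem mem_of_eqv {K : Subgroup F4} (hK : K0 ≤ K) {x y : F4} (h : Eqv x y) :
    x ∈ K ↔ y ∈ K := by
  have h1 : x * y⁻¹ ∈ K := hK h
  constructor
  · intro hx
    have := K.mul_mem (K.inv_mem h1) hx
    rwa [mul_inv_rev, inv_inv, inv_mul_cancel_right] at this
  · intro hy
    have := K.mul_mem h1 hy
    rwa [inv_mul_cancel_right] at this

/-- Contraction: the kernel is the union of the approximations. -/
theorem exists_mem_KK_aux (k : ℕ) : ∀ (τ : ℕ → Finset (Fin 3)), (∀ n, (τ n).Nonempty) →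
    (∀ i : Fin 4, i ≠ 0 → ∀ m, ∃ n, m ≤ n ∧ ∃ y ∈ τ n, act i y = true) →
    ∀ w : F4, Len k w → w ∈ NL (Lam τ) → ∃ n, w ∈ KK n τ := by
  induction k using Nat.strong_induction_on with
  | _ k ih =>
    rintro τ hne hact w ⟨v, l, hl, hw⟩ h
    rw [mem_of_eqv (K0_le_NL _) hw] at h
    have hNL : (NL (Lam τ)).Normal := inferInstance
    suffices H : ∃ n, vv v * W l ∈ KK n τ by
      obtain ⟨n, hn⟩ := H
      exact ⟨n, (mem_of_eqv (K0_le_KK n τ) hw).2 hn⟩
    obtain rfl | ⟨l', u, rfl⟩ : l = [] ∨ ∃ l' u, l = l' ++ [u] := by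
      rcases List.eq_nil_or_concat l with rfl | ⟨l', u, h⟩
      · exact Or.inl rfl
      · exact Or.inr ⟨l', u, by rw [h, List.concat_eq_append]⟩
    · rw [W_nil, mul_one] at h ⊢
      by_cases hv : v = 0
      · subst hv
        exact ⟨0, by rw [vv_zero]; exact (KK 0 τ).one_mem⟩
      · exfalso
        obtain ⟨n, -, hn⟩ := hact v hv 0
        exact vv_not_mem v n τ hne hn h
    · -- move the first letter to the end
      have hc : Eqv ((vv v)⁻¹ * (vv v * W (l' ++ [u])) * (vv v)⁻¹⁻¹) (W (l' ++ [vmul u v])) := by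
        rw [inv_inv, inv_mul_cancel_left, W_append, W_append, W_cons, W_cons, W_nil, mul_one,
          mul_one, mul_assoc, mul_assoc]
        exact (Eqv.refl _).mul ((Eqv.refl _).mul (vv_mul u v))
      have h1 : W (l' ++ [vmul u v]) ∈ NL (Lam τ) := by
        rw [← mem_of_eqv (K0_le_NL _) hc]
        exact hNL.conj_mem _ h _
      have hred : (∃ n, W (l' ++ [vmul u v]) ∈ KK n τ) → ∃ n, vv v * W (l' ++ [u]) ∈ KK n τ := by
        rintro ⟨n, hn⟩
        rw [← mem_of_eqv (K0_le_KK n τ) hc] at hn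
        refine ⟨n, ?_⟩
        have h2 := (KK_normal n τ).conj_mem _ hn (vv v)
        rwa [show vv v * ((vv v)⁻¹ * (vv v * W (l' ++ [u])) * (vv v)⁻¹⁻¹) * (vv v)⁻¹ =
          vv v * W (l' ++ [u]) by group] at h2
      apply hred
      set l1 := l' ++ [vmul u v] with hl1
      have hlen : l1.length ≤ k ∧ 0 < l1.length := by
        rw [hl1]
        simp only [List.length_append, List.length_cons, List.length_nil] at hl ⊢
        omega
      rcases Nat.even_or_odd' l1.length with ⟨m, hm | hm⟩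
      · have hsec : ∀ e y, y ∈ τ 0 → ∃ n, (Psi (W l1)).left e y ∈ KK n (tl τ) := by
          intro e y hy
          refine ih m (by omega) (tl τ) (fun n => hne (n + 1)) ?_ _ (Len_section l1 m hm e y).1
            (((mem_NL_Lam τ hne _).1 h1).2 e y hy)
          intro i hi m
          obtain ⟨n, hn, hn'⟩ := hact i hi (m + 1)
          obtain ⟨n', rfl⟩ : ∃ n', n = n' + 1 := ⟨n - 1, by omega⟩
          exact ⟨n', by omega, hn'⟩
        have hsec' : ∀ e y, ∃ n, y ∈ τ 0 → (Psi (W l1)).left e y ∈ KK n (tl τ) := by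
          intro e y
          by_cases hy : y ∈ τ 0
          · obtain ⟨n, hn⟩ := hsec e y hy
            exact ⟨n, fun _ => hn⟩
          · exact ⟨0, fun h => absurd h hy⟩
        choose f hf using hsec'
        set N := Finset.univ.sup fun p : Bool × Fin 3 => f p.1 p.2 with hN
        refine ⟨N + 1, ?_⟩
        rw [KK_succ, Subgroup.mem_comap, mem_Kx]
        refine ⟨(Len_section l1 m hm true 0).2, fun e y hy => ?_⟩
        refine KK_mono ?_ _ (hf e y hy)
        exact Finset.le_sup (f := fun p : Bool × Fin 3 => f p.1 p.2) (Finset.mem_univ (e, y))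
      · exfalso
        exact Psi_W_right_odd l1 m hm ((mem_NL_Lam τ hne _).1 h1).1

/-- Contraction: the kernel is the union of the approximations. -/
theorem exists_mem_KK (τ : ℕ → Finset (Fin 3)) (hne : ∀ n, (τ n).Nonempty)
    (hact : ∀ i : Fin 4, i ≠ 0 → ∀ m, ∃ n, m ≤ n ∧ ∃ y ∈ τ n, act i y = true)
    (w : F4) (h : w ∈ NL (Lam τ)) : ∃ n, w ∈ KK n τ := by
  obtain ⟨k, hk⟩ := exists_len w
  exact exists_mem_KK_aux k τ hne hact w hk h

theorem section_a_conj (h : F4) (hh : (Psi h).right = 1) (e : Bool) (y : Fin 3) :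
    (Psi (FreeGroup.of 0 * h * (FreeGroup.of 0)⁻¹)).right = 1 ∧
    (Psi (FreeGroup.of 0 * h * (FreeGroup.of 0)⁻¹)).left e y = (Psi h).left (!e) y := by
  have h1 : ∀ e, (Psi (FreeGroup.of 0)⁻¹).left e y = 1 := by
    intro e
    have h2 := mul_left_apply (Psi (FreeGroup.of 0)) (Psi (FreeGroup.of 0)⁻¹) (!e) y
    rw [← map_mul, mul_inv_cancel, map_one, Psi_a_left, Psi_a_right, boolNot_inv_apply,
      Bool.not_not, one_mul] at h2
    exact h2.symm
  constructor
  · rw [map_mul, map_mul, mul_right_apply, mul_right_apply, hh, mul_one, ← mul_right_apply,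
      ← map_mul, mul_inv_cancel, map_one]
    rfl
  · rw [map_mul, map_mul, mul_left_apply, mul_left_apply, h1, mul_one, Psi_a_left, one_mul,
      Psi_a_right, boolNot_inv_apply]

/-- Sections of even words are onto. -/
theorem exists_section (e : Bool) (y : Fin 3) (w : F4) :
    ∃ h : F4, (Psi h).right = 1 ∧ (Psi h).left e y = w := by
  induction w using FreeGroup.induction_on with
  | C1 => exact ⟨1, by rw [map_one]; rfl, by rw [map_one]; rfl⟩
  | of i =>
    suffices H : ∃ e, ∃ h : F4, (Psi h).right = 1 ∧ (Psi h).left e y = FreeGroup.of i by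
      obtain ⟨e', h, h1, h2⟩ := H
      by_cases he : e = e'
      · subst he
        exact ⟨h, h1, h2⟩
      · refine ⟨FreeGroup.of 0 * h * (FreeGroup.of 0)⁻¹, (section_a_conj h h1 e y).1, ?_⟩
        rw [(section_a_conj h h1 e y).2]
        have : (!e) = e' := by
          cases e <;> cases e' <;> simp_all
        rw [this, h2]
    by_cases hi : i = 0
    · subst hi
      obtain ⟨j, hj⟩ : ∃ j : Fin 4, act j y = true := by
        revert y; decide
      exact ⟨false, vv j, Psi_vv_right j, by rw [Psi_vv_left_false, hj, if_pos rfl]⟩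
    · exact ⟨true, vv i, Psi_vv_right i, by rw [Psi_vv_left_true, vv_of hi]⟩
  | inv_of i ih =>
    obtain ⟨h, h1, h2⟩ := ih
    refine ⟨h⁻¹, by rw [map_inv, SemidirectProduct.inv_right, h1, inv_one], ?_⟩
    have h3 := mul_left_apply (Psi h) (Psi h)⁻¹ e y
    rw [mul_inv_cancel, h1, inv_one, Equiv.Perm.one_apply, h2] at h3
    rw [map_inv]
    exact eq_inv_of_mul_eq_one_right h3.symm
  | mul x z hx hz =>
    obtain ⟨h, h1, h2⟩ := hx
    obtain ⟨h', h1', h2'⟩ := hz
    refine ⟨h * h', by rw [map_mul, mul_right_apply, h1, h1', mul_one], ?_⟩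
    rw [map_mul, mul_left_apply, h1, inv_one, Equiv.Perm.one_apply, h2, h2']

end Pool.Agent.helper11.NA
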